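import Pool.Agent.H369.CB.Stm

/-!
# The region of the last linear system is empty
-/

set_option autoImplicit false

namespace Pool.Agent.H297.CB

open Pool.Agent.TH603.EL Pool.Agent.TH716.CF Pool.Agent.H369.TH Pool.Agent.H369.CB

theorem coeff_toLau {K : Type} [Field K] (f : (ℤ × ℕ) →₀ K) (z : ℤ × ℤ) :
    (toLau f).coeff z = ∑ m ∈ f.support, if (m.1, (m.2 : ℤ)) = z then f m else 0 := by
  unfold toLau
  rw [Finsupp.sum, AddMonoidAlgebra.coeff_sum, Finsupp.finsetSum_apply]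
  refine Finset.sum_congr rfl fun m _ => ?_
  rw [AddMonoidAlgebra.coeff_single, Finsupp.single_apply]

theorem coeff_toLau_nat {K : Type} [Field K] (f : (ℤ × ℕ) →₀ K) (a : ℤ) (k : ℕ) :
    (toLau f).coeff (a, (k : ℤ)) = f (a, k) := by
  rw [coeff_toLau, Finset.sum_eq_single (a, k)]
  · simp
  · rintro ⟨b, l⟩ _ hne
    rw [if_neg]
    intro h
    apply hne
    simp only [Prod.mk.injEq, Nat.cast_inj] at h
    exact Prod.ext h.1 h.2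
  · intro h
    simp only [Finsupp.mem_support_iff, not_not] at h
    simp [h]

theorem coeff_toLau_ne {K : Type} [Field K] (f : (ℤ × ℕ) →₀ K) (z : ℤ × ℤ)
    (h : (toLau f).coeff z ≠ 0) : ∃ k : ℕ, z.2 = (k : ℤ) ∧ f (z.1, k) ≠ 0 := by
  rw [coeff_toLau] at h
  obtain ⟨m, -, hm⟩ := Finset.exists_ne_zero_of_sum_ne_zero h
  rw [ne_eq, ite_eq_right_iff, Classical.not_imp] at hm
  refine ⟨m.2, ?_, ?_⟩
  · rw [← hm.1]
  · rw [← hm.1]
    exact hm.2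

/-- the sheared region -/
def S1 (t L : ℝ) (N γ : ℕ) : Set (ℤ × ℤ) :=
  {z | 0 ≤ z.2 ∧ (2 * t - 1) * (z.2 : ℝ) ≤ (z.1 : ℝ) - L ∧ 2 * t * (z.2 : ℝ) - γ ≤ (z.1 : ℝ) - L ∧
    (z.1 : ℝ) - L ≤ 2 * N - γ + (2 * t - 4) * (z.2 : ℝ)}

/-- the triangle of the short rows -/
def S2 (t L : ℝ) (N γ : ℕ) : Set (ℤ × ℤ) :=
  {z | 0 ≤ z.2 ∧ (2 * t - 1) * (z.2 : ℝ) ≤ (z.1 : ℝ) - L ∧
    (z.1 : ℝ) - L ≤ t * N - γ - t * (t - 2) * (z.2 : ℝ) ∧
    ((N : ℝ) = t * γ → (2 * t - 1) * (z.2 : ℝ) < (z.1 : ℝ) - L)}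

theorem sqrt_nat {g N γ : ℕ} (hγ : 0 < γ) (h : (N : ℝ) = √g * γ) : ∃ s : ℕ, √(g : ℝ) = s := by
  have h2 : N ^ 2 = g * γ ^ 2 := by
    have : (N : ℝ) ^ 2 = g * γ ^ 2 := by
      rw [h, mul_pow, Real.sq_sqrt (Nat.cast_nonneg g)]
    exact_mod_cast this
  have hd : γ ∣ N := by
    rw [← Nat.pow_dvd_pow_iff (n := 2) (by norm_num)]
    exact ⟨g, by rw [h2]; ring⟩
  obtain ⟨s, hs⟩ := hd
  refine ⟨s, ?_⟩
  have hγ' : (γ : ℝ) ≠ 0 := by positivity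
  rw [hs] at h
  push_cast at h
  have : (γ : ℝ) * (s - √g) = 0 := by linarith
  rcases mul_eq_zero.1 this with h0 | h0
  · exact absurd h0 hγ'
  · linarith

/-- the flattening of the sheared region -/
theorem flat (t L : ℝ) (N γ : ℕ) (ht : 2 ≤ t)
    (hs : (N : ℝ) = t * γ → (∃ s : ℕ, t = s) ∧ ∀ z : ℤ, (z : ℝ) ≠ L)
    (a b T k : ℤ) (h1 : (a, b) ∈ S1 t L N γ) (h2 : (a, b + T) ∈ S1 t L N γ) (hk : 0 ≤ k)
    (hkT : k ≤ T) : (a, k) ∈ S2 t L N γ := by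
  obtain ⟨hb, -, -, h1⟩ := h1
  obtain ⟨-, h2, h3, -⟩ := h2
  simp only at hb h1 h2 h3
  push_cast at h2 h3
  have hb' : (0 : ℝ) ≤ b := by exact_mod_cast hb
  have hk' : (0 : ℝ) ≤ k := by exact_mod_cast hk
  have hT' : (k : ℝ) ≤ T := by exact_mod_cast hkT
  have hl : (2 * t - 1) * (k : ℝ) ≤ (a : ℝ) - L := by nlinarith
  refine ⟨hk, hl, ?_, ?_⟩
  · show (a : ℝ) - L ≤ t * N - γ - t * (t - 2) * (k : ℝ)
    have e1 : 2 * t * ((b : ℝ) + k) ≤ (a : ℝ) - L + γ := by nlinarith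
    have e2 : (a : ℝ) - L + γ ≤ 2 * N + (2 * t - 4) * b := by linarith
    nlinarith
  · intro h
    obtain ⟨⟨s, hs⟩, hL⟩ := hs h
    refine lt_of_le_of_ne hl ?_
    show (2 * t - 1) * (k : ℝ) ≠ (a : ℝ) - L
    intro he
    apply hL (a - (2 * s - 1) * k)
    push_cast
    rw [hs] at he
    linarith

/-- the rows of the triangle are short -/
theorem rows (g : ℕ) (hg : 4 ≤ g) (L : ℝ) (N γ : ℕ) (hN : (N : ℝ) ≤ √g * γ) (j : ℕ)
    (z z' : ℤ × ℤ) (hz : z ∈ S2 (√g) L N γ) (hz' : z' ∈ S2 (√g) L N γ) (hj : (j : ℤ) ≤ z.2)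
    (hj' : (j : ℤ) ≤ z'.2) : z'.1 - z.1 < (((g - 1) * (γ - j) : ℕ) : ℤ) := by
  obtain ⟨-, h1, -, h2⟩ := hz
  obtain ⟨-, -, h3, -⟩ := hz'
  have ht : (2 : ℝ) ≤ √g := by
    rw [Real.le_sqrt (by norm_num) (Nat.cast_nonneg g)]
    have : (4 : ℝ) ≤ g := by exact_mod_cast hg
    linarith
  have hsq : √(g : ℝ) * √g = g := Real.mul_self_sqrt (Nat.cast_nonneg g)
  have hj1 : (j : ℝ) ≤ z.2 := by exact_mod_cast hj
  have hj2 : (j : ℝ) ≤ z'.2 := by exact_mod_cast hj'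
  have hge : ((g : ℝ) - 1) * ((γ : ℝ) - j) ≤ (((g - 1) * (γ - j) : ℕ) : ℝ) := by
    have e1 : (((g - 1 : ℕ)) : ℝ) = (g : ℝ) - 1 := by
      rw [Nat.cast_sub (by omega)]
      simp
    have e2 : (γ : ℝ) - j ≤ ((γ - j : ℕ) : ℝ) := by
      rcases le_total j γ with h | h
      · rw [Nat.cast_sub h]
      · have : (γ : ℝ) ≤ j := by exact_mod_cast h
        have : (0 : ℝ) ≤ ((γ - j : ℕ) : ℝ) := Nat.cast_nonneg _
        linarith
    have e3 : (0 : ℝ) ≤ (g : ℝ) - 1 := by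
      have : (4 : ℝ) ≤ g := by exact_mod_cast hg
      linarith
    rw [Nat.cast_mul, e1]
    exact mul_le_mul_of_nonneg_left e2 e3
  have hlt : ((z'.1 : ℝ) - z.1) < (((g - 1) * (γ - j) : ℕ) : ℝ) := by
    refine lt_of_lt_of_le ?_ hge
    have e4 : (2 * √(g : ℝ) - 1) * (j : ℝ) ≤ (2 * √(g : ℝ) - 1) * (z.2 : ℝ) :=
      mul_le_mul_of_nonneg_left hj1 (by linarith)
    have e5 : √(g : ℝ) * (√g - 2) * (j : ℝ) ≤ √(g : ℝ) * (√g - 2) * (z'.2 : ℝ) :=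
      mul_le_mul_of_nonneg_left hj2 (mul_nonneg (by linarith) (by linarith))
    have e6 : √(g : ℝ) * (√g - 2) * (j : ℝ) + (2 * √(g : ℝ) - 1) * (j : ℝ) = ((g : ℝ) - 1) * j := by
      linear_combination (j : ℝ) * hsq
    have e7 : √(g : ℝ) * (√(g : ℝ) * γ) = g * γ := by rw [← mul_assoc, hsq]
    rcases eq_or_lt_of_le hN with h | h
    · have h2' := h2 h
      have e8 : √(g : ℝ) * N = g * γ := by rw [h, e7]
      nlinarith
    · have e8 : √(g : ℝ) * N < g * γ := by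
        rw [← e7]
        exact mul_lt_mul_of_pos_left h (by linarith)
      nlinarith
  exact_mod_cast hlt

/-- the shear of the region -/
theorem shear (g : ℕ) (L : ℝ) (J γ : ℕ) (κ : ℕ) (hκ : (κ : ℤ) = ⌊2 * √(g : ℝ)⌋ - 3)
    (a : ℤ) (k : ℕ) (h : Reg L (Int.fract (2 * √g)) (J + γ) J a k) :
    (a + κ * (k : ℤ), (k : ℤ)) ∈ S1 (√g) L (J + γ) γ := by
  obtain ⟨h1, h2, h3, h4⟩ := h
  have hk' : (κ : ℝ) = (⌊2 * √(g : ℝ)⌋ : ℝ) - 3 := by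
    have : ((κ : ℤ) : ℝ) = ((⌊2 * √(g : ℝ)⌋ - 3 : ℤ) : ℝ) := by rw [hκ]
    push_cast at this
    exact this
  have hfr : Int.fract (2 * √(g : ℝ)) = 2 * √g - κ - 3 := by
    rw [← Int.self_sub_floor]; linarith
  rw [hfr] at h3 h4
  have hjm1 : 2 * k ≤ k + J - jm (J + γ) J k := by unfold jm; omega
  have hjm2 : 3 * k ≤ k + J - jm (J + γ) J k + γ := by unfold jm; omega
  have hjm3 : k + J - jm (J + γ) J k + jm (J + γ) J k = k + J := by unfold jm; omega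
  generalize hA : k + J - jm (J + γ) J k = A at *
  generalize jm (J + γ) J k = B at *
  have hjm1' : 2 * (k : ℝ) ≤ A := by exact_mod_cast hjm1
  have hjm2' : 3 * (k : ℝ) ≤ A + γ := by exact_mod_cast hjm2
  have hjm3' : (A : ℝ) + B = k + J := by exact_mod_cast hjm3
  refine ⟨by positivity, ?_, ?_, ?_⟩
  · push_cast
    nlinarith
  · push_cast
    nlinarith
  · push_cast at h4 ⊢
    nlinarith

/-- **CB3** -/
theorem cb (h1 : S_pow) (h2 : S_unif) : S_CB := by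
  intro g hg
  have ht : (2 : ℝ) ≤ √g := by
    rw [Real.le_sqrt (by norm_num) (Nat.cast_nonneg g)]
    have : (4 : ℝ) ≤ g := by exact_mod_cast hg
    linarith
  have hfl : (4 : ℤ) ≤ ⌊2 * √(g : ℝ)⌋ := by
    rw [Int.le_floor]
    push_cast
    linarith
  obtain ⟨κ, hκ⟩ := Int.eq_ofNat_of_zero_le (show 0 ≤ ⌊2 * √(g : ℝ)⌋ - 3 by omega)
  have hκ0 : 0 < κ := by omega
  obtain ⟨K, iK, cK, ξ, y, φ, hc, hξ, hy, hgerm, hx0, hy0, hE⟩ := h2 (g - 1) κ hκ0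
  refine ⟨K, iK, cK, ξ, y, hc, hξ, hy, ?_⟩
  intro J γ L hγ hN hL f hf hv
  have hz : toLau f = 0 := by
    refine hE {z | 0 ≤ z.2 ∧ (z.1 + κ * z.2, z.2) ∈ S1 (√g) L (J + γ) γ} (S1 (√g) L (J + γ) γ)
      (S2 (√g) L (J + γ) γ) γ (fun m hm => hm.1) ?_ ?_ (fun z hz => hz.2) (toLau f) ?_ ?_
    · intro j z hz z' hz' hj hj'
      exact rows g hg L (J + γ) γ hN j z z' hz hz' hj hj'
    · intro a b T k hab hab' hk hkT
      refine flat (√g) L (J + γ) γ ht (fun h => ⟨sqrt_nat hγ h, hL h⟩) a b T k hab hab' hk hkT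
    · intro z hz
      obtain ⟨k, hk, hfk⟩ := coeff_toLau_ne f z hz
      have := shear g L J γ κ hκ.symm z.1 k (hf z.1 k hfk)
      refine ⟨by omega, ?_⟩
      rw [hk]
      exact this
    · intro i
      exact h1 K (φ i) (hgerm i) (ξ i) (y i) (hx0 i) (hy0 i) f γ (fun a b hab => hv i a b hab)
  ext ⟨a, k⟩
  rw [← coeff_toLau_nat, hz]
  simp

end Pool.Agent.H297.CB
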